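import Mathlib
import Pool.Agent.P.MP_ed39a4_al.Defs
import Pool.Agent.P.MP_ed39a4_al.Main

set_option autoImplicit false

open Pool.Agent.P.MP_ed39a4_al

/-- There is a finitely generated one-ended group none of whose Cayley graphs (for finite
generating sets) has connected spheres. -/
theorem Pool.Agent.Results.MP_ed39a4_al.NeverConnectedSpheres.result :
    ∃ (G : Type) (_ : Group G), Group.FG G ∧
      ∀ S : Finset G, Subgroup.closure (S : Set G) = ⊤ → OneEnded S ∧ ¬ ConnectedSpheres S :=
  main
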