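import Mathlib
import Pool.Agent.P.MP_ed39a4_al.Defs
import Pool.Agent.P.MP_ed39a4_al.Defs2
import Pool.Agent.P.MP_ed39a4_al.Main2

set_option autoImplicit false

open Pool.Agent.P.MP_ed39a4_al

/-- There is a finitely generated one-ended group all of whose Cayley graphs (for finite
generating sets) have dead-ends of unbounded retreat depth. -/
theorem Pool.Agent.Results.MP_ed39a4_al.UnboundedRetreatDepth.result :
    ∃ (G : Type) (_ : Group G), Group.FG G ∧
      ∀ S : Finset G, Subgroup.closure (S : Set G) = ⊤ →
        OneEnded S ∧ ¬ BoundedRetreatDepth S :=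
  RD.main
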